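import Pool.Agent.Lib.MP_009461_co.Mix55

/-!
# The bound `7/4` for 4-colourable graphs whose triangle-free induced subgraphs are 3-colourable

Weights are normalised: cliques with at most three vertices have weight at most one.
-/

set_option autoImplicit false

namespace Pool.Agent.Imp55

open MeasureTheory

variable {V : Type} [Fintype V]

/-- The vertices above their threshold. -/
noncomputable def up (u thr : V → ℝ) : Finset V := Finset.univ.filter (fun v => thr v < u v)

/-- The classes of a colouring of the vertices above their threshold, with all vertices of weight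
more than `1 - tt` added to every class. -/
noncomputable def cls {k : ℕ} (f : Finset V → V → Fin k) (u thr : V → ℝ) (tt : ℝ) (j : Fin k) :
    Finset V :=
  Finset.univ.filter (fun v => (thr v < u v ∧ f (up u thr) v = j) ∨ 1 - tt < u v)

theorem cls_indep {G : SimpleGraph V} {k : ℕ} {f : Finset V → V → Fin k} {u thr : V → ℝ}
    {tt : ℝ} (hu : ∀ a b, G.Adj a b → u a + u b ≤ 1) (htt : tt ≤ 1 / 2)
    (hthr : ∀ v, tt ≤ thr v)
    (hf : ∀ a b, G.Adj a b → thr a < u a → thr b < u b → f (up u thr) a ≠ f (up u thr) b)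
    (j : Fin k) : G.IsIndepSet (cls f u thr tt j : Set V) := by
  intro a ha b hb _ hadj
  have hab := hu a b hadj
  simp only [cls, Finset.coe_filter, Finset.mem_univ, true_and, Set.mem_ofPred_eq] at ha hb
  have ta := hthr a
  have tb := hthr b
  rcases ha with ⟨ha1, ha2⟩ | ha1
  · rcases hb with ⟨hb1, hb2⟩ | hb1
    · exact hf a b hadj ha1 hb1 (ha2.trans hb2.symm)
    · linarith
  · rcases hb with ⟨hb1, hb2⟩ | hb1
    · linarith
    · linarith

variable [DecidableEq V]

theorem cls_meas {k : ℕ} (f : Finset V → V → Fin k) (u : V → ℝ) {thr : V → ℝ → ℝ} {tt : ℝ → ℝ}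
    (hthr : ∀ v, Continuous (thr v)) (htt : Continuous tt) (j : Fin k) (v : V) :
    MeasurableSet {t : ℝ | v ∈ cls f u (fun x => thr x t) (tt t) j} := by
  have h0 : ∀ x, MeasurableSet {t : ℝ | x ∈ up u (fun x => thr x t)} := by
    intro x
    have : {t : ℝ | x ∈ up u (fun x => thr x t)} = {t : ℝ | thr x t < u x} := by
      ext t; simp [up]
    rw [this]
    exact measurableSet_lt (hthr x).measurable measurable_const
  have h1 : MeasurableSet {t : ℝ | f (up u (fun x => thr x t)) v = j} :=
    meas_of (X := fun t => up u (fun x => thr x t)) h0 (fun K => f K v = j)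
  have h2 : MeasurableSet {t : ℝ | thr v t < u v} :=
    measurableSet_lt (hthr v).measurable measurable_const
  have h3 : MeasurableSet {t : ℝ | 1 - tt t < u v} :=
    measurableSet_lt (measurable_const.sub htt.measurable) measurable_const
  have : {t : ℝ | v ∈ cls f u (fun x => thr x t) (tt t) j} =
      ({t : ℝ | thr v t < u v} ∩ {t : ℝ | f (up u (fun x => thr x t)) v = j}) ∪
        {t : ℝ | 1 - tt t < u v} := by
    ext t
    simp [cls]
  rw [this]
  exact (h2.inter h1).union h3

/-- The total time of the classes at a vertex. -/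
theorem cls_cover {k : ℕ} (hk : 1 ≤ k) (f : Finset V → V → Fin k) (u : V → ℝ)
    {thr : V → ℝ → ℝ} {tt : ℝ → ℝ}
    (hthr : ∀ v, Continuous (thr v)) (htt : Continuous tt) (v : V)
    {p q p' q' : ℝ} (hp : 0 ≤ p) (hq : q ≤ 1) (hpq : p ≤ q) (hp' : 0 ≤ p') (hq' : q' ≤ 1)
    (hpq' : p' ≤ q') (h1 : ∀ t, p < t → t < q → thr v t < u v)
    (h2 : ∀ t, p' < t → t < q' → 1 - tt t < u v) :
    (q - p) + ((k : ℝ) - 1) * (q' - p') ≤
      ∑ j : Fin k, ∫ t in (0 : ℝ)..1,
        (if v ∈ cls f u (fun x => thr x t) (tt t) j then (1 : ℝ) else 0) := by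
  classical
  have hm1 : MeasurableSet {t : ℝ | thr v t < u v} :=
    measurableSet_lt (hthr v).measurable measurable_const
  have hm2 : MeasurableSet {t : ℝ | 1 - tt t < u v} :=
    measurableSet_lt (measurable_const.sub htt.measurable) measurable_const
  have g1 := int_ge hm1 hp hq hpq h1
  have g2 := int_ge hm2 hp' hq' hpq' h2
  have hk' : (0 : ℝ) ≤ (k : ℝ) - 1 := by
    have : (1 : ℝ) ≤ (k : ℝ) := by exact_mod_cast hk
    linarith
  have i1 := ii_of hm1 0 1
  have i2 := ii_of hm2 0 1
  have hi : ∀ j : Fin k, IntervalIntegrable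
      (fun t => if v ∈ cls f u (fun x => thr x t) (tt t) j then (1 : ℝ) else 0) volume 0 1 :=
    fun j => ii_of (cls_meas f u hthr htt j v) 0 1
  calc (q - p) + ((k : ℝ) - 1) * (q' - p')
      ≤ (∫ t in (0 : ℝ)..1, if t ∈ {t : ℝ | thr v t < u v} then (1 : ℝ) else 0) +
        ((k : ℝ) - 1) *
          (∫ t in (0 : ℝ)..1, if t ∈ {t : ℝ | 1 - tt t < u v} then (1 : ℝ) else 0) :=
        add_le_add g1 (mul_le_mul_of_nonneg_left g2 hk')
    _ = ∫ t in (0 : ℝ)..1, ((if t ∈ {t : ℝ | thr v t < u v} then (1 : ℝ) else 0) +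
        ((k : ℝ) - 1) * (if t ∈ {t : ℝ | 1 - tt t < u v} then (1 : ℝ) else 0)) := by
        rw [intervalIntegral.integral_add i1 (i2.const_mul _),
          intervalIntegral.integral_const_mul]
    _ ≤ ∫ t in (0 : ℝ)..1, ∑ j : Fin k,
        (if v ∈ cls f u (fun x => thr x t) (tt t) j then (1 : ℝ) else 0) := by
        have hsum : IntervalIntegrable (fun t => ∑ j : Fin k,
            (if v ∈ cls f u (fun x => thr x t) (tt t) j then (1 : ℝ) else 0)) volume 0 1 := by
          have := IntervalIntegrable.sum (Finset.univ : Finset (Fin k)) (fun j _ => hi j)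
          simpa only [Finset.sum_fn] using this
        refine intervalIntegral.integral_mono_on zero_le_one (i1.add (i2.const_mul _))
          hsum (fun t _ => ?_)
        by_cases ht : 1 - tt t < u v
        · have : ∀ j : Fin k, v ∈ cls f u (fun x => thr x t) (tt t) j := by
            intro j; simp [cls, ht]
          simp only [this, if_true, Finset.sum_const, Finset.card_univ, Fintype.card_fin,
            nsmul_eq_mul, mul_one, Set.mem_ofPred_eq, ht]
          split_ifs <;> linarith
        · by_cases ht2 : thr v t < u v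
          · have h3 : v ∈ cls f u (fun x => thr x t) (tt t) (f (up u (fun x => thr x t)) v) := by
              simp [cls, ht2]
            have h4 : (1 : ℝ) ≤ ∑ j : Fin k,
                (if v ∈ cls f u (fun x => thr x t) (tt t) j then (1 : ℝ) else 0) := by
              have := Finset.single_le_sum (f := fun j : Fin k =>
                (if v ∈ cls f u (fun x => thr x t) (tt t) j then (1 : ℝ) else 0))
                (fun j _ => by split_ifs <;> norm_num)
                (Finset.mem_univ (f (up u (fun x => thr x t)) v))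
              simpa [h3] using this
            simpa [ht, ht2] using h4
          · have h4 : (0 : ℝ) ≤ ∑ j : Fin k,
                (if v ∈ cls f u (fun x => thr x t) (tt t) j then (1 : ℝ) else 0) :=
              Finset.sum_nonneg (fun j _ => by split_ifs <;> norm_num)
            simpa [ht, ht2] using h4
    _ = _ := intervalIntegral.integral_finsetSum (fun j _ => hi j)

/-- The thresholds of the three modes. -/
noncomputable def theta (m : Fin 3) (i : Fin 4) (t : ℝ) : ℝ :=
  if m = 2 then 1 / 3 + t / 6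
  else if (m = 0 ↔ i.val < 2) then 1 / 4 + t / 12 else 1 / 2 - t / 6

/-- The small threshold of the three modes. -/
noncomputable def tsm (m : Fin 3) (t : ℝ) : ℝ :=
  if m = 2 then 1 / 3 + t / 6 else 1 / 4 + t / 12

theorem theta_cont (m : Fin 3) (i : Fin 4) : Continuous (theta m i) := by
  unfold theta
  split_ifs <;> fun_prop

theorem tsm_cont (m : Fin 3) : Continuous (tsm m) := by
  unfold tsm
  split_ifs <;> fun_prop

theorem tsm_le_theta (m : Fin 3) (i : Fin 4) {t : ℝ} (h1 : t ≤ 1) :
    tsm m t ≤ theta m i t := by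
  unfold tsm theta
  split_ifs <;> linarith

theorem tsm_le_half (m : Fin 3) {t : ℝ} (h1 : t ≤ 1) : tsm m t ≤ 1 / 2 := by
  unfold tsm
  split_ifs <;> linarith

theorem theta_triple (m : Fin 3) {i j k : Fin 4} (hij : i ≠ j) (hik : i ≠ k) (hjk : j ≠ k)
    {t : ℝ} (h0 : 0 ≤ t) (h1 : t ≤ 1) : 1 ≤ theta m i t + theta m j t + theta m k t := by
  have hij' : i.val ≠ j.val := fun h => hij (Fin.ext h)
  have hik' : i.val ≠ k.val := fun h => hik (Fin.ext h)
  have hjk' : j.val ≠ k.val := fun h => hjk (Fin.ext h)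
  have hi := i.isLt
  have hj := j.isLt
  have hk := k.isLt
  unfold theta
  by_cases hm2 : m = 2
  · simp only [hm2, if_true]
    linarith
  · simp only [hm2, if_false]
    by_cases hm0 : m = 0
    · simp only [hm0, true_iff]
      split_ifs <;> first | linarith | (exfalso; omega)
    · simp only [hm0, false_iff]
      split_ifs <;> first | linarith | (exfalso; omega)

/-- The arithmetic of the coverage. -/
theorem cover_arith (a : ℝ) (ha : a ≤ 1) (i : Fin 4) {S : Fin 3 → ℝ}
    (hS : ∀ (m : Fin 3) (p q p' q' : ℝ), 0 ≤ p → q ≤ 1 → p ≤ q → 0 ≤ p' → q' ≤ 1 → p' ≤ q' →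
      (∀ t, p < t → t < q → theta m i t < a) → (∀ t, p' < t → t < q' → 1 - tsm m t < a) →
      (q - p) + (((3 : ℕ) : ℝ) - 1) * (q' - p') ≤ S m) :
    a ≤ 1 / 4 + 1 / 12 * (S 0 + S 1 + S 2) := by
  -- clamp
  have c0 : ∀ x : ℝ, 0 ≤ max 0 (min 1 x) := fun x => le_max_left _ _
  have c1 : ∀ x : ℝ, max 0 (min 1 x) ≤ 1 := fun x => max_le zero_le_one (min_le_left _ _)
  have cl : ∀ x t : ℝ, 0 < t → t < max 0 (min 1 x) → t < x := by
    intro x t ht h
    rcases lt_max_iff.1 h with h | h
    · linarith
    · exact (lt_min_iff.1 h).2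
  have cu : ∀ x t : ℝ, max 0 (min 1 x) < t → t < 1 → x < t := by
    intro x t h ht
    have h' := (max_lt_iff.1 h).2
    rcases min_lt_iff.1 h' with h | h
    · linarith
    · exact h
  have cg : ∀ x : ℝ, min 1 x ≤ max 0 (min 1 x) := fun x => le_max_right _ _
  have cg1 : ∀ x : ℝ, x ≤ 1 → x ≤ max 0 (min 1 x) := fun x hx =>
    (min_eq_right hx).symm.le.trans (cg x)
  have cg2 : ∀ x : ℝ, 1 ≤ x → 1 ≤ max 0 (min 1 x) := fun x hx =>
    (min_eq_left hx).symm.le.trans (cg x)
  have ch1 : ∀ x : ℝ, 0 ≤ x → max 0 (min 1 x) ≤ x := fun x hx => max_le hx (min_le_right _ _)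
  have ch2 : ∀ x : ℝ, x ≤ 0 → max 0 (min 1 x) ≤ 0 := fun x hx =>
    max_le le_rfl ((min_le_right _ _).trans hx)
  -- the three kinds of modes
  have k1 : ∀ m : Fin 3, m ≠ 2 → (m = 0 ↔ i.val < 2) →
      max 0 (min 1 (12 * a - 3)) + 2 * (1 - max 0 (min 1 (9 - 12 * a))) ≤ S m := by
    intro m hm hmi
    have := hS m 0 (max 0 (min 1 (12 * a - 3))) (max 0 (min 1 (9 - 12 * a))) 1 le_rfl (c1 _)
      (c0 _) (c0 _) le_rfl (c1 _)
      (fun t h1 h2 => by
        have := cl _ t h1 h2
        simp only [theta, if_neg hm, if_pos hmi]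
        linarith)
      (fun t h1 h2 => by
        have := cu _ t h1 h2
        simp only [tsm, if_neg hm]
        linarith)
    norm_num at this ⊢
    linarith
  have k2 : ∀ m : Fin 3, m ≠ 2 → ¬ (m = 0 ↔ i.val < 2) →
      1 - max 0 (min 1 (3 - 6 * a)) + 2 * (1 - max 0 (min 1 (9 - 12 * a))) ≤ S m := by
    intro m hm hmi
    have := hS m (max 0 (min 1 (3 - 6 * a))) 1 (max 0 (min 1 (9 - 12 * a))) 1 (c0 _) le_rfl
      (c1 _) (c0 _) le_rfl (c1 _)
      (fun t h1 h2 => by
        have := cu _ t h1 h2
        simp only [theta, if_neg hm, if_neg hmi]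
        linarith)
      (fun t h1 h2 => by
        have := cu _ t h1 h2
        simp only [tsm, if_neg hm]
        linarith)
    norm_num at this ⊢
    linarith
  have k3 : max 0 (min 1 (6 * a - 2)) + 2 * (1 - max 0 (min 1 (4 - 6 * a))) ≤ S 2 := by
    have := hS 2 0 (max 0 (min 1 (6 * a - 2))) (max 0 (min 1 (4 - 6 * a))) 1 le_rfl (c1 _)
      (c0 _) (c0 _) le_rfl (c1 _)
      (fun t h1 h2 => by
        have := cl _ t h1 h2
        simp only [theta, if_true]
        linarith)
      (fun t h1 h2 => by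
        have := cu _ t h1 h2
        simp only [tsm, if_true]
        linarith)
    norm_num at this ⊢
    linarith
  have k12 : max 0 (min 1 (12 * a - 3)) + (1 - max 0 (min 1 (3 - 6 * a))) +
      4 * (1 - max 0 (min 1 (9 - 12 * a))) ≤ S 0 + S 1 := by
    by_cases hi : i.val < 2
    · have h0 := k1 0 (by decide) (by simp [hi])
      have h1 := k2 1 (by decide) (by simp [hi])
      linarith
    · have h0 := k2 0 (by decide) (by simp [hi])
      have h1 := k1 1 (by decide) (by simp [hi])
      linarith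
  have b1 := c0 (12 * a - 3)
  have b2 := c1 (3 - 6 * a)
  have b3 := c1 (9 - 12 * a)
  have b4 := c0 (6 * a - 2)
  have b5 := c1 (4 - 6 * a)
  rcases le_total a (1 / 4) with h | h
  · linarith
  rcases le_total a (1 / 3) with h' | h'
  · have := cg1 (12 * a - 3) (by linarith)
    linarith
  have b1' := cg2 (12 * a - 3) (by linarith)
  rcases le_total a (1 / 2) with h'' | h''
  · have f1 := ch1 (3 - 6 * a) (by linarith)
    have f2 := cg1 (6 * a - 2) (by linarith)
    linarith
  have b2' := ch2 (3 - 6 * a) (by linarith)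
  have b4' := cg2 (6 * a - 2) (by linarith)
  rcases le_total a (2 / 3) with h3 | h3
  · have f1 := ch1 (4 - 6 * a) (by linarith)
    linarith
  have b5' := ch2 (4 - 6 * a) (by linarith)
  rcases le_total a (3 / 4) with h4 | h4
  · have f1 := ch1 (9 - 12 * a) (by linarith)
    linarith
  have b3' := ch2 (9 - 12 * a) (by linarith)
  linarith

theorem main_norm {G : SimpleGraph V} (col : V → Fin 4) (hcol : ∀ a b, G.Adj a b → col a ≠ col b)
    (h3 : ∀ X : Set V, (G.induce X).CliqueFree 3 → (G.induce X).Colorable 3)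
    (u : V → ℝ) (u1 : ∀ a, u a ≤ 1) (u2 : ∀ a b, G.Adj a b → u a + u b ≤ 1)
    (u3 : ∀ a b c, G.Adj a b → G.Adj a c → G.Adj b c → u a + u b + u c ≤ 1) :
    ∃ y : Finset V → ℝ, (∀ I, 0 ≤ y I) ∧
      (∀ I, y I ≠ 0 → G.IsIndepSet (I : Set V)) ∧
      (∀ v, u v ≤ ∑ I ∈ Finset.univ.filter (fun I => v ∈ I), y I) ∧
      ∑ I, y I = 7 / 4 := by
  classical
  have hch : ∀ X : Finset V, ∃ g : V → Fin 3, (G.induce (X : Set V)).CliqueFree 3 →
      ∀ a b, a ∈ X → b ∈ X → G.Adj a b → g a ≠ g b := by
    intro X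
    by_cases hX : (G.induce (X : Set V)).CliqueFree 3
    · obtain ⟨C⟩ := h3 (X : Set V) hX
      refine ⟨fun v => if h : v ∈ (X : Set V) then C ⟨v, h⟩ else 0, fun _ a b ha hb hab => ?_⟩
      have ha' : a ∈ (X : Set V) := ha
      have hb' : b ∈ (X : Set V) := hb
      simp only [ha', hb', dif_pos]
      exact C.valid (by simpa using hab)
    · exact ⟨fun _ => 0, fun h => absurd h hX⟩
  choose f hf using hch
  have key := mixing G
    (E := Fin 4 ⊕ (Fin 3 × Fin 3))
    (fun e => Sum.elim (fun _ => (1 / 4 : ℝ)) (fun _ => (1 / 12 : ℝ)) e)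
    (by rintro (i | m) <;> norm_num)
    (fun e t => Sum.elim (fun i => Finset.univ.filter (fun v => col v = i))
      (fun m => cls f u (fun v => theta m.1 (col v) t) (tsm m.1 t) m.2) e)
    (by
      rintro (i | m) t ht0 ht1
      · intro a ha b hb _ hadj
        simp only [Sum.elim_inl, Finset.coe_filter, Finset.mem_univ, true_and,
          Set.mem_ofPred_eq] at ha hb
        exact hcol a b hadj (ha.trans hb.symm)
      · simp only [Sum.elim_inr]
        refine cls_indep u2 (tsm_le_half m.1 ht1) (fun v => tsm_le_theta m.1 (col v) ht1)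
          (fun a b hab ha hb => ?_) m.2
        refine hf _ ?_ a b (by simp [up, ha]) (by simp [up, hb]) hab
        intro s hs
        rw [SimpleGraph.is3Clique_iff] at hs
        obtain ⟨x, y, z, hxy, hxz, hyz, -⟩ := hs
        have hx : theta m.1 (col x) t < u x := by
          have := x.2
          simpa [up] using this
        have hy : theta m.1 (col y) t < u y := by
          have := y.2
          simpa [up] using this
        have hz : theta m.1 (col z) t < u z := by
          have := z.2
          simpa [up] using this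
        have hxy' : G.Adj x y := by simpa using hxy
        have hxz' : G.Adj x z := by simpa using hxz
        have hyz' : G.Adj y z := by simpa using hyz
        have g1 := theta_triple m.1 (hcol _ _ hxy') (hcol _ _ hxz') (hcol _ _ hyz') ht0 ht1
        have g2 := u3 _ _ _ hxy' hxz' hyz'
        linarith)
    (by
      rintro (i | m) v
      · simp
      · simp only [Sum.elim_inr]
        exact cls_meas f u (fun v => theta_cont m.1 (col v)) (tsm_cont m.1) m.2 v)
    u
    (by
      intro v
      have hS := fun m : Fin 3 => fun (p q p' q' : ℝ) (hp : 0 ≤ p) (hq : q ≤ 1) (hpq : p ≤ q)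
          (hp' : 0 ≤ p') (hq' : q' ≤ 1) (hpq' : p' ≤ q')
          (h1 : ∀ t, p < t → t < q → theta m (col v) t < u v)
          (h2 : ∀ t, p' < t → t < q' → 1 - tsm m t < u v) =>
        cls_cover (k := 3) (by norm_num) f u (thr := fun x => theta m (col x)) (tt := tsm m)
          (fun x => theta_cont m (col x)) (tsm_cont m) v hp hq hpq hp' hq' hpq' h1 h2
      rw [Fintype.sum_sum_type]
      have e1 : ∑ i : Fin 4, (1 / 4 : ℝ) * (∫ _ in (0 : ℝ)..1,
          if v ∈ Finset.univ.filter (fun v => col v = i) then (1 : ℝ) else 0) = 1 / 4 := by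
        simp
      have e2 : ∑ m : Fin 3 × Fin 3, (1 / 12 : ℝ) * (∫ t in (0 : ℝ)..1,
          if v ∈ cls f u (fun v => theta m.1 (col v) t) (tsm m.1 t) m.2 then (1 : ℝ) else 0) =
          (1 / 12 : ℝ) * ((∑ j : Fin 3, ∫ t in (0 : ℝ)..1,
            if v ∈ cls f u (fun v => theta 0 (col v) t) (tsm 0 t) j then (1 : ℝ) else 0) +
          (∑ j : Fin 3, ∫ t in (0 : ℝ)..1,
            if v ∈ cls f u (fun v => theta 1 (col v) t) (tsm 1 t) j then (1 : ℝ) else 0) +
          (∑ j : Fin 3, ∫ t in (0 : ℝ)..1,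
            if v ∈ cls f u (fun v => theta 2 (col v) t) (tsm 2 t) j then (1 : ℝ) else 0)) := by
        rw [← Finset.mul_sum, Fintype.sum_prod_type, Fin.sum_univ_three]
      have tot := cover_arith (u v) (u1 v) (col v) hS
      rw [← e2, ← e1] at tot
      exact tot)
  obtain ⟨y, hy0, hy1, hy2, hy3⟩ := key
  refine ⟨y, hy0, hy1, hy2, ?_⟩
  rw [hy3]
  simp
  norm_num

/-- The bound `7/4` for all nonnegative weights. -/
theorem main {G : SimpleGraph V} (h4 : G.Colorable 4)
    (h3 : ∀ X : Set V, (G.induce X).CliqueFree 3 → (G.induce X).Colorable 3)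
    (w : V → ℝ) (M : ℝ)
    (hM : ∀ K : Finset V, G.IsClique (K : Set V) → ∑ v ∈ K, w v ≤ M) :
    ∃ y : Finset V → ℝ, (∀ I, 0 ≤ y I) ∧
      (∀ I, y I ≠ 0 → G.IsIndepSet (I : Set V)) ∧
      (∀ v, w v ≤ ∑ I ∈ Finset.univ.filter (fun I => v ∈ I), y I) ∧
      ∑ I, y I ≤ (7 / 4 : ℝ) * M := by
  obtain ⟨C⟩ := h4
  have hM0 : 0 ≤ M := by simpa using hM ∅ (by simp)
  have w1 : ∀ a, w a ≤ M := fun a => by simpa using hM {a} (by simp)
  rcases hM0.eq_or_lt with h0 | h0
  · refine ⟨fun _ => 0, fun _ => le_rfl, fun _ h => absurd rfl h, fun v => ?_, ?_⟩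
    · have := w1 v
      simpa using this.trans h0.symm.le
    · simp [← h0]
  have w2 : ∀ a b, G.Adj a b → w a + w b ≤ M := fun a b hab => by
    have := hM {a, b} (by
      simp only [Finset.coe_insert, Finset.coe_singleton]
      rw [SimpleGraph.isClique_insert]
      exact ⟨by simp, fun c hc _ => by
        rw [Set.mem_singleton_iff] at hc; rw [hc]; exact hab⟩)
    rwa [Finset.sum_pair hab.ne] at this
  have w3 : ∀ a b c, G.Adj a b → G.Adj a c → G.Adj b c → w a + w b + w c ≤ M := by
    intro a b c hab hac hbc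
    have := hM {a, b, c} (by
      have := (SimpleGraph.is3Clique_iff (G := G) (s := {a, b, c})).2
        ⟨a, b, c, hab, hac, hbc, rfl⟩
      exact this.isClique)
    rw [Finset.sum_insert (by simp [hab.ne, hac.ne]), Finset.sum_pair hbc.ne] at this
    linarith
  obtain ⟨y, y0, y1, y2, y3⟩ := main_norm (G := G) (fun v => C v)
    (fun a b hab => C.valid hab) h3 (fun v => w v / M)
    (fun a => by rw [div_le_one h0]; exact w1 a)
    (fun a b hab => by rw [← add_div, div_le_one h0]; exact w2 a b hab)
    (fun a b c hab hac hbc => by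
      rw [← add_div, ← add_div, div_le_one h0]; exact w3 a b c hab hac hbc)
  refine ⟨fun I => M * y I, fun I => mul_nonneg hM0 (y0 I), fun I hI => y1 I ?_, fun v => ?_, ?_⟩
  · exact fun h => hI (by simp only [h, mul_zero])
  · rw [← Finset.mul_sum]
    have := mul_le_mul_of_nonneg_left (y2 v) hM0
    rwa [mul_div_cancel₀ _ h0.ne'] at this
  · rw [← Finset.mul_sum, y3]
    linarith

end Pool.Agent.Imp55
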