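import Pool.Agent.Lib.MP_009461_co.Rg

/-!
# Fractional colourings built along an elimination order
-/

namespace Pool.Agent.Imp3

open Finset

variable {V : Type} [Fintype V] [DecidableEq V]

/-- membership of a possibly absent point -/
def inn (a : Option V) (I : Finset V) : Bool := a.elim false fun x => decide (x ∈ I)

/-- the pattern of `I` on three points -/
def pat (a b c : Option V) (I : Finset V) : ℕ :=
  cond (inn a I) 1 0 + cond (inn b I) 2 0 + cond (inn c I) 4 0

/-- masses of the patterns -/
noncomputable def dist (y : Finset V → ℝ) (a b c : Option V) (P : ℕ) : ℝ :=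
  ∑ J, if pat a b c J = P then y J else 0

omit [Fintype V] in
theorem pat_lt (a b c : Option V) (I : Finset V) : pat a b c I < 8 := by
  unfold pat
  cases inn a I <;> cases inn b I <;> cases inn c I <;> decide

omit [Fintype V] in
theorem pat_bit0 (a b c : Option V) (I : Finset V) : (pat a b c I).testBit 0 = inn a I := by
  unfold pat
  cases inn a I <;> cases inn b I <;> cases inn c I <;> decide

omit [Fintype V] in
theorem pat_bit1 (a b c : Option V) (I : Finset V) : (pat a b c I).testBit 1 = inn b I := by
  unfold pat
  cases inn a I <;> cases inn b I <;> cases inn c I <;> decide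

omit [Fintype V] in
theorem pat_bit2 (a b c : Option V) (I : Finset V) : (pat a b c I).testBit 2 = inn c I := by
  unfold pat
  cases inn a I <;> cases inn b I <;> cases inn c I <;> decide

theorem dist_nonneg {y : Finset V → ℝ} (hy : ∀ J, 0 ≤ y J) (a b c : Option V) (P : ℕ) :
    0 ≤ dist y a b c P :=
  sum_nonneg fun J _ => by split_ifs; exacts [hy J, le_rfl]

/-- sums over patterns -/
theorem sum_dist (y : Finset V → ℝ) (a b c : Option V) (g : ℕ → ℝ) :
    ∑ P ∈ range 8, g P * dist y a b c P = ∑ J, g (pat a b c J) * y J := by
  unfold dist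
  simp only [mul_sum]
  rw [sum_comm]
  refine sum_congr rfl fun J _ => ?_
  simp only [mul_ite, mul_zero]
  rw [sum_ite_eq, if_pos (mem_range.2 (pat_lt a b c J))]

/-- transfer between triples -/
theorem dist_add2 {y : Finset V → ℝ} {a b c a' b' c' : Option V} {P Q R : ℕ} (hQR : Q ≠ R)
    (h : ∀ J, pat a b c J = P ↔ (pat a' b' c' J = Q ∨ pat a' b' c' J = R)) :
    dist y a b c P = dist y a' b' c' Q + dist y a' b' c' R := by
  unfold dist
  rw [← sum_add_distrib]
  refine sum_congr rfl fun J _ => ?_
  by_cases h1 : pat a' b' c' J = Q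
  · rw [if_pos ((h J).2 (Or.inl h1)), if_pos h1, if_neg (by rw [h1]; exact hQR), add_zero]
  · by_cases h2 : pat a' b' c' J = R
    · rw [if_pos ((h J).2 (Or.inr h2)), if_neg h1, if_pos h2, zero_add]
    · rw [if_neg (by rw [h J]; push Not; exact ⟨h1, h2⟩), if_neg h1, if_neg h2, add_zero]

theorem dist_zero {y : Finset V → ℝ} {a b c : Option V} {P : ℕ} (h : ∀ J, pat a b c J ≠ P) :
    dist y a b c P = 0 :=
  sum_eq_zero fun J _ => if_neg (h J)

/-- forget the first point -/
theorem drop0 (y : Finset V → ℝ) (a b c : Option V) :
    dist y none b c 0 = dist y a b c 0 + dist y a b c 1 ∧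
    dist y none b c 2 = dist y a b c 2 + dist y a b c 3 ∧
    dist y none b c 4 = dist y a b c 4 + dist y a b c 5 ∧
    dist y none b c 6 = dist y a b c 6 + dist y a b c 7 := by
  refine ⟨dist_add2 (by norm_num) fun J => ?_, dist_add2 (by norm_num) fun J => ?_,
    dist_add2 (by norm_num) fun J => ?_, dist_add2 (by norm_num) fun J => ?_⟩
  all_goals
    unfold pat
    have : inn (none : Option V) J = false := rfl
    rw [this]
    cases inn a J <;> cases inn b J <;> cases inn c J <;> decide

/-- forget the second point -/
theorem drop1 (y : Finset V → ℝ) (a b c : Option V) :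
    dist y none a c 0 = dist y a b c 0 + dist y a b c 2 ∧
    dist y none a c 2 = dist y a b c 1 + dist y a b c 3 ∧
    dist y none a c 4 = dist y a b c 4 + dist y a b c 6 ∧
    dist y none a c 6 = dist y a b c 5 + dist y a b c 7 := by
  refine ⟨dist_add2 (by norm_num) fun J => ?_, dist_add2 (by norm_num) fun J => ?_,
    dist_add2 (by norm_num) fun J => ?_, dist_add2 (by norm_num) fun J => ?_⟩
  all_goals
    unfold pat
    have : inn (none : Option V) J = false := rfl
    rw [this]
    cases inn a J <;> cases inn b J <;> cases inn c J <;> decide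

/-- patterns with an absent first point -/
theorem odd_zero (y : Finset V → ℝ) (b c : Option V) :
    dist y none b c 1 = 0 ∧ dist y none b c 3 = 0 ∧ dist y none b c 5 = 0 ∧
    dist y none b c 7 = 0 := by
  refine ⟨dist_zero fun J => ?_, dist_zero fun J => ?_, dist_zero fun J => ?_,
    dist_zero fun J => ?_⟩
  all_goals
    unfold pat
    have : inn (none : Option V) J = false := rfl
    rw [this]
    cases inn b J <;> cases inn c J <;> decide

/-! ### Adjacency -/

variable (G : SimpleGraph V)

open Classical in
/-- adjacency of possibly absent points -/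
noncomputable def aO (a b : Option V) : Bool :=
  a.elim false fun x => b.elim false fun y => decide (G.Adj x y)

/-- the code of a triple -/
noncomputable def ecode (a b c : Option V) : ℕ :=
  cond (aO G a b) 1 0 + cond (aO G a c) 2 0 + cond (aO G b c) 4 0

omit [Fintype V] [DecidableEq V] in
theorem ecode_lt (a b c : Option V) : ecode G a b c < 8 := by
  unfold ecode
  cases aO G a b <;> cases aO G a c <;> cases aO G b c <;> decide

omit [Fintype V] [DecidableEq V] in
theorem ecode_bit0 (a b c : Option V) : (ecode G a b c).testBit 0 = aO G a b := by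
  unfold ecode
  cases aO G a b <;> cases aO G a c <;> cases aO G b c <;> decide

omit [Fintype V] [DecidableEq V] in
theorem ecode_bit1 (a b c : Option V) : (ecode G a b c).testBit 1 = aO G a c := by
  unfold ecode
  cases aO G a b <;> cases aO G a c <;> cases aO G b c <;> decide

omit [Fintype V] [DecidableEq V] in
theorem ecode_bit2 (a b c : Option V) : (ecode G a b c).testBit 2 = aO G b c := by
  unfold ecode
  cases aO G a b <;> cases aO G a c <;> cases aO G b c <;> decide

omit [Fintype V] [DecidableEq V] in
theorem aO_none_left (b : Option V) : aO G none b = false := rfl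

omit [Fintype V] [DecidableEq V] in
theorem aO_none_right (b : Option V) : aO G b none = false := by
  cases b <;> rfl

omit [Fintype V] [DecidableEq V] in
theorem aO_iff {a b : Option V} : aO G a b = true ↔ ∃ x y, a = some x ∧ b = some y ∧ G.Adj x y := by
  constructor
  · intro h
    rcases a with _ | x
    · exact absurd h (by rw [aO_none_left]; decide)
    · rcases b with _ | y
      · exact absurd h (by rw [aO_none_right]; decide)
      · exact ⟨x, y, rfl, rfl, by simpa [aO] using h⟩
  · rintro ⟨x, y, rfl, rfl, h⟩
    simpa [aO] using h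

omit [Fintype V] in
theorem inn_iff {a : Option V} {I : Finset V} : inn a I = true ↔ ∃ x, a = some x ∧ x ∈ I := by
  constructor
  · intro h
    rcases a with _ | x
    · simp [inn] at h
    · exact ⟨x, rfl, of_decide_eq_true h⟩
  · rintro ⟨x, rfl, h⟩
    exact decide_eq_true h

/-- `y` lives on independent sets -/
def Sup (y : Finset V → ℝ) : Prop := ∀ I, y I ≠ 0 → G.IsIndepSet (I : Set V)

variable {G}

theorem adj_zero {y : Finset V → ℝ} (hy : Sup G y) {a b : Option V} (h : aO G a b = true)
    {J : Finset V} (ha : inn a J = true) (hb : inn b J = true) : y J = 0 := by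
  by_contra hne
  obtain ⟨x, z, rfl, rfl, hxz⟩ := (aO_iff G).1 h
  obtain ⟨x', hx', hxJ⟩ := inn_iff.1 ha
  obtain ⟨z', hz', hzJ⟩ := inn_iff.1 hb
  cases hx'
  cases hz'
  exact hy J hne hxJ hzJ hxz.ne hxz

theorem dist_adj_zero {y : Finset V → ℝ} (hy : Sup G y) {a b c : Option V} {P : ℕ}
    (h : ∀ J, pat a b c J = P → y J = 0) : dist y a b c P = 0 :=
  sum_eq_zero fun J _ => by
    split_ifs with h1
    · exact h J h1
    · rfl

/-- a triple with two present points -/
theorem sat_none {y : Finset V → ℝ} (hy : ∀ J, 0 ≤ y J) (hs : Sup G y) (b c : Option V)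
    (h : aO G b c = false →
      (0 ≤ dist y none b c 0 + dist y none b c 2 + dist y none b c 4 + dist y none b c 6 -
        3 * dist y none b c 4 ∨
      0 ≤ dist y none b c 0 + dist y none b c 2 + dist y none b c 4 + dist y none b c 6 -
        3 * dist y none b c 2)) : sat (ecode G none b c) (dist y none b c) := by
  obtain ⟨o1, o3, o5, o7⟩ := odd_zero y b c
  have hn := dist_nonneg hy none b c
  cases hbc : aO G b c
  · have e : ecode G none b c = 0 := by
      unfold ecode
      rw [hbc, aO_none_left, aO_none_left]
      rfl
    rw [e]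
    exact sat_zero (hn 0) (hn 2) (hn 4) (hn 6) o1 o3 o5 o7 (h hbc)
  · have e : ecode G none b c = 4 := by
      unfold ecode
      rw [hbc, aO_none_left, aO_none_left]
      rfl
    rw [e]
    refine sat_four (hn 0) (hn 2) (hn 4) ?_ o1 o3 o5 o7
    refine dist_adj_zero hs fun J hJ => adj_zero hs hbc ?_ ?_
    · rw [← pat_bit1 none b c J, hJ]; decide
    · rw [← pat_bit2 none b c J, hJ]; decide

/-- a triple with one present point -/
theorem sat_none2 {y : Finset V → ℝ} (hy : ∀ J, 0 ≤ y J) (hs : Sup G y) (c : Option V) :
    sat (ecode G none none c) (dist y none none c) := by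
  refine sat_none hy hs none c fun _ => Or.inr ?_
  have hn := dist_nonneg hy none none c
  have h2 : dist y none none c 2 = 0 := dist_zero fun J => by
    unfold pat
    have : inn (none : Option V) J = false := rfl
    rw [this]
    cases inn c J <;> decide
  have := hn 0
  have := hn 4
  have := hn 6
  rw [h2]
  linarith

theorem sat_drop0 {y : Finset V → ℝ} (hy : ∀ J, 0 ≤ y J) (hs : Sup G y) {a b c : Option V}
    (h : sat (ecode G a b c) (dist y a b c)) : sat (ecode G none b c) (dist y none b c) := by
  refine sat_none hy hs b c fun hbc => ?_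
  obtain ⟨d0, d2, d4, d6⟩ := drop0 y a b c
  have := pair12 (ecode_lt G a b c) (by rw [ecode_bit2, hbc]) h
  rw [d0, d2, d4, d6]
  rcases this with h | h
  · left; linarith
  · right; linarith

theorem sat_drop1 {y : Finset V → ℝ} (hy : ∀ J, 0 ≤ y J) (hs : Sup G y) {a b c : Option V}
    (h : sat (ecode G a b c) (dist y a b c)) : sat (ecode G none a c) (dist y none a c) := by
  refine sat_none hy hs a c fun hbc => ?_
  obtain ⟨d0, d2, d4, d6⟩ := drop1 y a b c
  have := pair02 (ecode_lt G a b c) (by rw [ecode_bit1, hbc]) h
  rw [d0, d2, d4, d6]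
  rcases this with h | h
  · left; linarith
  · right; linarith

end Pool.Agent.Imp3
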