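import Pool.Agent.Lib.MP_009461_co.Step
import Pool.Agent.Lib.MP_009461_co.Cone.All

/-!
# The imperfection ratio of graphs of treewidth at most three
-/

namespace Pool.Agent.Imp3

open Finset

variable {V : Type} [Fintype V] [DecidableEq V]

/-- the last element -/
theorem exists_top (r : V → ℕ) (A : Finset V) : ∃ a : Option V,
    (∀ x, a = some x → x ∈ A ∧ ∀ z ∈ A, r z ≤ r x) ∧ (a = none → A = ∅) := by
  rcases A.eq_empty_or_nonempty with h | h
  · exact ⟨none, by simp, fun _ => h⟩
  · obtain ⟨x, hx, hmax⟩ := A.exists_max_image r h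
    refine ⟨some x, ?_, by simp⟩
    intro x' hx'
    cases hx'
    exact ⟨hx, hmax⟩

/-- sorted triples -/
theorem exists_triple {H : SimpleGraph V} {r : V → ℕ} (hr : Function.Injective r)
    {S A : Finset V} (hAS : A ⊆ S) (hA : H.IsClique (A : Set V)) (hc : A.card ≤ 3) :
    ∃ x0 x1 x2 : Option V, Tri H r S x0 x1 x2 ∧
      ∀ u ∈ A, some u = x0 ∨ some u = x1 ∨ some u = x2 := by
  obtain ⟨x2, h2, n2⟩ := exists_top r A
  set A1 := A.filter fun u => some u ≠ x2 with hA1
  obtain ⟨x1, h1, n1⟩ := exists_top r A1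
  set A0 := A1.filter fun u => some u ≠ x1 with hA0
  obtain ⟨x0, h0, n0⟩ := exists_top r A0
  have s1 : A1 ⊆ A := filter_subset _ _
  have s0 : A0 ⊆ A1 := filter_subset _ _
  have rl : ∀ {a b : Option V} {B C : Finset V},
      (∀ x, a = some x → x ∈ B) → (∀ x, b = some x → x ∈ C ∧ ∀ z ∈ C, r z ≤ r x) →
      (b = none → C = ∅) → C ⊆ A → B ⊆ C → (∀ u ∈ B, some u ≠ b) → rel H r a b := by
    intro a b B C ha hb hbn hCA hBC hne
    rcases a with _ | x
    · trivial
    · have hx := ha x rfl
      rcases b with _ | z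
      · have := hbn rfl
        rw [this] at hBC
        exact absurd (hBC hx) (notMem_empty x)
      · obtain ⟨hz, hmax⟩ := hb z rfl
        have hxz : x ≠ z := fun e => hne x hx (by rw [e])
        refine ⟨lt_of_le_of_ne (hmax x (hBC hx)) fun e => hxz (hr e), ?_⟩
        exact hA (mem_coe.2 (hCA (hBC hx))) (mem_coe.2 (hCA hz)) hxz
  refine ⟨x0, x1, x2, ⟨?_, ?_, ?_, ?_, ?_, ?_⟩, ?_⟩
  · exact rl (fun x hx => (h0 x hx).1) h1 n1 s1 s0 (fun u hu => (mem_filter.1 hu).2)
  · exact rl (fun x hx => (h0 x hx).1) h2 n2 (Subset.refl _) (s0.trans s1)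
      (fun u hu => (mem_filter.1 (s0 hu)).2)
  · exact rl (fun x hx => (h1 x hx).1) h2 n2 (Subset.refl _) s1 (fun u hu => (mem_filter.1 hu).2)
  · exact fun x hx => hAS (s1 (s0 (h0 x hx).1))
  · exact fun x hx => hAS (s1 (h1 x hx).1)
  · exact fun x hx => hAS (h2 x hx).1
  · intro u hu
    by_contra hne
    push Not at hne
    obtain ⟨e0, e1, e2⟩ := hne
    have u1 : u ∈ A1 := mem_filter.2 ⟨hu, e2⟩
    have u0 : u ∈ A0 := mem_filter.2 ⟨u1, e1⟩
    rcases hx0 : x0 with _ | a0
    · rw [n0 hx0] at u0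
      exact notMem_empty u u0
    rcases hx1 : x1 with _ | a1
    · rw [n1 hx1] at u1
      exact notMem_empty u u1
    rcases hx2 : x2 with _ | a2
    · rw [n2 hx2] at hu
      exact notMem_empty u hu
    have m0 := (h0 a0 hx0).1
    have m1 := (h1 a1 hx1).1
    have m2 := (h2 a2 hx2).1
    have d01 : a0 ≠ a1 := fun e => (mem_filter.1 m0).2 (by rw [hx1, e])
    have d02 : a0 ≠ a2 := fun e => (mem_filter.1 (s0 m0)).2 (by rw [hx2, e])
    have d12 : a1 ≠ a2 := fun e => (mem_filter.1 m1).2 (by rw [hx2, e])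
    have du0 : u ≠ a0 := fun e => e0 (by rw [hx0, e])
    have du1 : u ≠ a1 := fun e => e1 (by rw [hx1, e])
    have du2 : u ≠ a2 := fun e => e2 (by rw [hx2, e])
    have hsub : ({u, a0, a1, a2} : Finset V) ⊆ A := by
      intro z hz
      simp only [mem_insert, mem_singleton] at hz
      rcases hz with rfl | rfl | rfl | rfl
      · exact hu
      · exact s1 (s0 m0)
      · exact s1 m1
      · exact m2
    have hcard : ({u, a0, a1, a2} : Finset V).card = 4 := by
      rw [card_insert_of_notMem, card_insert_of_notMem, card_insert_of_notMem, card_singleton]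
      · simpa using d12
      · simp [d01, d02]
      · simp [du0, du1, du2]
    have := card_le_card hsub
    omega

theorem exists_state {G H : SimpleGraph V} {r : V → ℕ} {w : V → ℝ} {M : ℝ}
    (hr : Function.Injective r) (hGH : G ≤ H)
    (hel : ∀ v, ∃ A : Finset V, A.card ≤ 3 ∧ (∀ u, u ∈ A ↔ H.Adj u v ∧ r u < r v) ∧
      H.IsClique (A : Set V))
    (hM : ∀ K : Finset V, G.IsClique (K : Set V) → ∑ v ∈ K, w v ≤ M) (hw : ∀ v, 0 ≤ w v)
    (k : ℕ) : ∃ y, St G H r w M (univ.filter fun u => r u < k) y := by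
  have hM0 : 0 ≤ M := by simpa using hM ∅ (by simp)
  induction k with
  | zero =>
    have e : (univ.filter fun u => r u < 0) = (∅ : Finset V) := by
      rw [filter_eq_empty_iff]; intro u _; omega
    rw [e]
    refine ⟨fun J => if J = ∅ then 3 / 2 * M else 0, ?_, ?_, ?_, ?_, ?_, ?_⟩
    · intro J
      change 0 ≤ if J = ∅ then 3 / 2 * M else 0
      split_ifs
      · positivity
      · exact le_rfl
    · intro J hJ
      have hJ' : J = ∅ := by
        by_contra hne
        exact hJ (if_neg hne)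
      rw [hJ']
      simp
    · intro J hJ
      have hJ' : J = ∅ := by
        by_contra hne
        exact hJ (if_neg hne)
      rw [hJ']
    · intro v hv
      exact absurd hv (notMem_empty v)
    · rw [sum_ite_eq', if_pos (mem_univ _)]
    · rintro a b c ⟨-, -, -, ha, hb, hc⟩
      have key : ∀ {a : Option V}, (∀ x, a = some x → x ∈ (∅ : Finset V)) → a = none := by
        intro a ha
        rcases a with _ | x
        · rfl
        · exact absurd (ha x rfl) (notMem_empty x)
      rw [key ha, key hb]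
      refine sat_none2 ?_ ?_ c
      · intro J
        change 0 ≤ if J = ∅ then 3 / 2 * M else 0
        split_ifs
        · positivity
        · exact le_rfl
      · intro J hJ
        have hJ' : J = ∅ := by
          by_contra hne
          exact hJ (if_neg hne)
        rw [hJ']
        simp
  | succ k ih =>
    obtain ⟨y, hy⟩ := ih
    by_cases hv : ∃ v, r v = k
    · obtain ⟨v, hv⟩ := hv
      have e : (univ.filter fun u => r u < k + 1) = insert v (univ.filter fun u => r u < k) := by
        ext u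
        simp only [mem_filter, mem_univ, true_and, mem_insert]
        constructor
        · intro h
          by_cases h' : r u = k
          · left; exact hr (h'.trans hv.symm)
          · right; omega
        · rintro (rfl | h)
          · omega
          · omega
      rw [e]
      obtain ⟨A, hc, hA, hcl⟩ := hel v
      obtain ⟨x0, x1, x2, ht, hx⟩ := exists_triple hr (S := univ.filter fun u => r u < k)
        (fun u hu => mem_filter.2 ⟨mem_univ u, by rw [← hv]; exact ((hA u).1 hu).2⟩) hcl hc
      refine hy.step (fun hE hN => ext_all hE hN) hGH hM hw (fun h => ?_) (fun u hu => ?_) ht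
        (fun u hu hadj => hx u ((hA u).2 ⟨hadj, ?_⟩))
      · have := (mem_filter.1 h).2
        omega
      · rw [hv]; exact (mem_filter.1 hu).2
      · rw [hv]; exact (mem_filter.1 hu).2
    · have e : (univ.filter fun u => r u < k + 1) = (univ.filter fun u => r u < k) := by
        ext u
        simp only [mem_filter, mem_univ, true_and]
        have : r u ≠ k := fun h => hv ⟨u, h⟩
        omega
      rw [e]
      exact ⟨y, hy⟩

theorem main {G H : SimpleGraph V} {r : V → ℕ}
    (hr : Function.Injective r) (hGH : G ≤ H)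
    (hel : ∀ v, ∃ A : Finset V, A.card ≤ 3 ∧ (∀ u, u ∈ A ↔ H.Adj u v ∧ r u < r v) ∧
      H.IsClique (A : Set V)) (w : V → ℝ) (hw : ∀ v, 0 ≤ w v) (M : ℝ)
    (hM : ∀ K : Finset V, G.IsClique (K : Set V) → ∑ v ∈ K, w v ≤ M) :
    ∃ y : Finset V → ℝ, (∀ I, 0 ≤ y I) ∧ (∀ I, y I ≠ 0 → G.IsIndepSet (I : Set V)) ∧
      (∀ v, w v ≤ ∑ I ∈ Finset.univ.filter (fun I => v ∈ I), y I) ∧
      ∑ I, y I ≤ (3 / 2 : ℝ) * M := by
  obtain ⟨k, hk⟩ : ∃ k, ∀ v, r v < k := by
    refine ⟨∑ v, r v + 1, fun v => ?_⟩
    have := single_le_sum (f := r) (fun _ _ => Nat.zero_le _) (mem_univ v)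
    omega
  obtain ⟨y, hy⟩ := exists_state (w := w) (M := M) hr hGH hel hM hw k
  refine ⟨y, hy.nn, hy.sup, fun v => ?_, hy.tot.le⟩
  rw [sum_filter, hy.cov v (mem_filter.2 ⟨mem_univ v, hk v⟩)]

end Pool.Agent.Imp3
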