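import Mathlib

/-!
# Mixing independent sets over a parameter in the unit interval

A fractional colouring given by finitely many families of independent sets which depend on a
parameter `t` in `[0,1]`; integration over `t` gives an ordinary fractional colouring.
-/

set_option autoImplicit false

namespace Pool.Agent.Imp55

open MeasureTheory

variable {V : Type} [Fintype V] [DecidableEq V]

theorem meas_of {X : ℝ → Finset V} (h : ∀ v, MeasurableSet {t | v ∈ X t})
    (P : Finset V → Prop) : MeasurableSet {t | P (X t)} := by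
  have h1 : {t | P (X t)} = ⋃ J : {J : Finset V // P J}, {t | X t = J.1} := by
    ext t
    simp
  rw [h1]
  refine MeasurableSet.iUnion (fun J => ?_)
  have h2 : {t | X t = J.1} = ⋂ v : V, {t | v ∈ X t ↔ v ∈ J.1} := by
    ext t
    simp [Finset.ext_iff]
  rw [h2]
  refine MeasurableSet.iInter (fun v => ?_)
  by_cases hv : v ∈ J.1
  · have : {t | v ∈ X t ↔ v ∈ J.1} = {t | v ∈ X t} := by
      ext t; simp [hv]
    rw [this]; exact h v
  · have : {t | v ∈ X t ↔ v ∈ J.1} = {t | v ∈ X t}ᶜ := by
      ext t; simp [hv]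
    rw [this]; exact (h v).compl

theorem ii_of {S : Set ℝ} [DecidablePred (· ∈ S)] (hS : MeasurableSet S) (a b : ℝ) :
    IntervalIntegrable (fun t => if t ∈ S then (1 : ℝ) else 0) volume a b := by
  have hm : Measurable (fun t => if t ∈ S then (1 : ℝ) else 0) :=
    Measurable.ite hS measurable_const measurable_const
  refine IntervalIntegrable.mono_fun' (g := fun _ => (1 : ℝ)) intervalIntegrable_const
    hm.aestronglyMeasurable (Filter.Eventually.of_forall (fun t => ?_))
  dsimp only
  split_ifs <;> simp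

theorem int_ge {S : Set ℝ} [DecidablePred (· ∈ S)] (hS : MeasurableSet S) {p q : ℝ}
    (h0 : 0 ≤ p) (h1 : q ≤ 1) (hpq : p ≤ q) (h : ∀ t, p < t → t < q → t ∈ S) :
    q - p ≤ ∫ t in (0 : ℝ)..1, (if t ∈ S then (1 : ℝ) else 0) := by
  have e1 := intervalIntegral.integral_add_adjacent_intervals (ii_of hS 0 p) (ii_of hS p q)
  have e2 := intervalIntegral.integral_add_adjacent_intervals (ii_of hS 0 q) (ii_of hS q 1)
  have n1 : 0 ≤ ∫ t in (0 : ℝ)..p, (if t ∈ S then (1 : ℝ) else 0) :=
    intervalIntegral.integral_nonneg h0 (fun t _ => by split_ifs <;> norm_num)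
  have n2 : 0 ≤ ∫ t in q..(1 : ℝ), (if t ∈ S then (1 : ℝ) else 0) :=
    intervalIntegral.integral_nonneg h1 (fun t _ => by split_ifs <;> norm_num)
  have n3 : ∫ _ in p..q, (1 : ℝ) ≤ ∫ t in p..q, (if t ∈ S then (1 : ℝ) else 0) := by
    refine intervalIntegral.integral_mono_on_of_le_Ioo hpq intervalIntegrable_const
      (ii_of hS p q) (fun t ht => ?_)
    rw [if_pos (h t ht.1 ht.2)]
  rw [intervalIntegral.integral_const] at n3
  simp only [smul_eq_mul, mul_one] at n3
  linarith

/-- Integrating families of independent sets gives a fractional colouring. -/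
theorem mixing {E : Type} [Fintype E] (G : SimpleGraph V) (c : E → ℝ) (hc : ∀ e, 0 ≤ c e)
    (I : E → ℝ → Finset V)
    (hind : ∀ e, ∀ t, 0 ≤ t → t ≤ 1 → G.IsIndepSet (I e t : Set V))
    (hmeas : ∀ e v, MeasurableSet {t : ℝ | v ∈ I e t})
    (w : V → ℝ)
    (hcov : ∀ v, w v ≤ ∑ e, c e * (∫ t in (0 : ℝ)..1, if v ∈ I e t then (1 : ℝ) else 0)) :
    ∃ y : Finset V → ℝ, (∀ I, 0 ≤ y I) ∧
      (∀ I, y I ≠ 0 → G.IsIndepSet (I : Set V)) ∧
      (∀ v, w v ≤ ∑ I ∈ Finset.univ.filter (fun I => v ∈ I), y I) ∧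
      ∑ I, y I = ∑ e, c e := by
  classical
  have hmJ : ∀ e (J : Finset V), MeasurableSet {t : ℝ | I e t = J} :=
    fun e J => meas_of (hmeas e) (fun K => K = J)
  have hiJ : ∀ e (J : Finset V),
      IntervalIntegrable (fun t => if I e t = J then (1 : ℝ) else 0) volume 0 1 :=
    fun e J => ii_of (hmJ e J) 0 1
  refine ⟨fun J => ∑ e, c e * (∫ t in (0 : ℝ)..1, if I e t = J then (1 : ℝ) else 0),
    fun J => ?_, fun J hJ => ?_, fun v => ?_, ?_⟩
  · refine Finset.sum_nonneg (fun e _ => mul_nonneg (hc e) ?_)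
    exact intervalIntegral.integral_nonneg zero_le_one (fun t _ => by split_ifs <;> norm_num)
  · by_contra hcon
    refine hJ (Finset.sum_eq_zero (fun e _ => ?_))
    have : ∫ t in (0 : ℝ)..1, (if I e t = J then (1 : ℝ) else 0) = ∫ _ in (0 : ℝ)..1, (0 : ℝ) := by
      refine intervalIntegral.integral_congr (fun t ht => ?_)
      rw [Set.uIcc_of_le zero_le_one] at ht
      have : I e t ≠ J := by
        rintro rfl
        exact hcon (hind e t ht.1 ht.2)
      simp [this]
    rw [this]
    simp
  · refine (hcov v).trans (le_of_eq ?_)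
    rw [Finset.sum_comm]
    refine Finset.sum_congr rfl (fun e _ => ?_)
    rw [← Finset.mul_sum, ← intervalIntegral.integral_finsetSum (fun J _ => hiJ e J)]
    congr 1
    refine intervalIntegral.integral_congr (fun t _ => ?_)
    rw [Finset.sum_ite_eq]
    simp
  · rw [Finset.sum_comm]
    refine Finset.sum_congr rfl (fun e _ => ?_)
    rw [← Finset.mul_sum, ← intervalIntegral.integral_finsetSum (fun J _ => hiJ e J)]
    have : ∫ t in (0 : ℝ)..1, (∑ J : Finset V, if I e t = J then (1 : ℝ) else 0) =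
        ∫ _ in (0 : ℝ)..1, (1 : ℝ) := by
      refine intervalIntegral.integral_congr (fun t _ => ?_)
      rw [Finset.sum_ite_eq]
      simp
    rw [this]
    simp

end Pool.Agent.Imp55
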