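import Pool.Agent.Lib.MP_009461_co.Cone.Ext

/-!
# The regions for triples with absent points
-/

namespace Pool.Agent.Imp3

open Finset

theorem el_eq {f : ℕ → ℤ} {c0 c1 c2 c3 c4 c5 c6 c7 : ℤ} (h : tb f = [c0, c1, c2, c3, c4, c5, c6, c7])
    (a : ℕ → ℝ) : ∑ P ∈ range 8, ((f P : ℤ) : ℝ) * a P =
      c0 * a 0 + c1 * a 1 + c2 * a 2 + c3 * a 3 + c4 * a 4 + c5 * a 5 + c6 * a 6 + c7 * a 7 := by
  simp only [tb, List.cons.injEq, and_true] at h
  obtain ⟨h0, h1, h2, h3, h4, h5, h6, h7⟩ := h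
  simp [sum_range_succ, h0, h1, h2, h3, h4, h5, h6, h7]

/-- the first point is absent and the other two are adjacent -/
theorem sat_four {p : ℕ → ℝ} (h0 : 0 ≤ p 0) (h2 : 0 ≤ p 2) (h4 : 0 ≤ p 4) (h6 : p 6 = 0)
    (h1 : p 1 = 0) (h3 : p 3 = 0) (h5 : p 5 = 0) (h7 : p 7 = 0) : sat 4 p := by
  have e : rgn 4 = [pairC 0 1, pairC 0 2, tripC 4] := rfl
  intro D hD
  rw [e] at hD
  simp only [List.mem_cons, List.not_mem_nil, or_false] at hD
  rcases hD with rfl | rfl | rfl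
  · refine ⟨fun P => 1 + 3 * wf 1 P - 3 * bi (P.testBit 0 || P.testBit 1), by simp [pairC], ?_⟩
    rw [el_eq (show tb _ = [1, -2, 1, 1, 1, -2, 1, 1] from rfl)]
    push_cast
    linarith
  · refine ⟨fun P => 1 + 3 * wf 2 P - 3 * bi (P.testBit 0 || P.testBit 2), by simp [pairC], ?_⟩
    rw [el_eq (show tb _ = [1, -2, 1, -2, 1, 1, 1, 1] from rfl)]
    push_cast
    linarith
  · refine ⟨fun P => 1 + 3 * wK 6 P - 3 * bi (!(Nat.beq P 0)), by simp [tripC, mc], ?_⟩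
    rw [el_eq (show tb _ = [1, -2, 1, 1, 1, 1, 4, 4] from rfl)]
    push_cast
    linarith

/-- the first point is absent and the other two are not adjacent -/
theorem sat_zero {p : ℕ → ℝ} (h0 : 0 ≤ p 0) (h2 : 0 ≤ p 2) (h4 : 0 ≤ p 4) (h6 : 0 ≤ p 6)
    (h1 : p 1 = 0) (h3 : p 3 = 0) (h5 : p 5 = 0) (h7 : p 7 = 0)
    (h : 0 ≤ p 0 + p 2 + p 4 + p 6 - 3 * p 4 ∨ 0 ≤ p 0 + p 2 + p 4 + p 6 - 3 * p 2) : sat 0 p := by
  have e : rgn 0 = [pairC 0 1, pairC 0 2, pairC 1 2, tripC 0, dC 1 0 2 6, oC 1 0 2 1, dC 2 1 0 5,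
    oC 2 1 0 2, dC 0 2 1 3, oC 0 2 1 4, iC] := rfl
  intro D hD
  rw [e] at hD
  simp only [List.mem_cons, List.not_mem_nil, or_false] at hD
  rcases hD with rfl | rfl | rfl | rfl | rfl | rfl | rfl | rfl | rfl | rfl | rfl
  · refine ⟨fun P => 1 + 3 * wf 1 P - 3 * bi (P.testBit 0 || P.testBit 1), by simp [pairC], ?_⟩
    rw [el_eq (show tb _ = [1, -2, 1, 1, 1, -2, 1, 1] from rfl)]
    push_cast
    linarith
  · refine ⟨fun P => 1 + 3 * wf 2 P - 3 * bi (P.testBit 0 || P.testBit 2), by simp [pairC], ?_⟩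
    rw [el_eq (show tb _ = [1, -2, 1, -2, 1, 1, 1, 1] from rfl)]
    push_cast
    linarith
  · rcases h with h | h
    · refine ⟨fun P => 1 + 3 * wf 1 P - 3 * bi (P.testBit 1 || P.testBit 2), by simp [pairC], ?_⟩
      rw [el_eq (show tb _ = [1, 1, 1, 1, -2, -2, 1, 1] from rfl)]
      push_cast
      linarith
    · refine ⟨fun P => 1 + 3 * wf 2 P - 3 * bi (P.testBit 1 || P.testBit 2), by simp [pairC], ?_⟩
      rw [el_eq (show tb _ = [1, 1, -2, -2, 1, 1, 1, 1] from rfl)]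
      push_cast
      linarith
  · rcases h with h | h
    · refine ⟨fun P => 1 + 3 * wK 2 P - 3 * bi (!(Nat.beq P 0)), by simp [tripC, mc], ?_⟩
      rw [el_eq (show tb _ = [1, -2, 1, 1, -2, -2, 1, 1] from rfl)]
      push_cast
      linarith
    · refine ⟨fun P => 1 + 3 * wK 4 P - 3 * bi (!(Nat.beq P 0)), by simp [tripC, mc], ?_⟩
      rw [el_eq (show tb _ = [1, -2, -2, -2, 1, 1, 1, 1] from rfl)]
      push_cast
      linarith
  · rcases le_total 0 (p 0 + p 2 + p 4 + p 6 - 3 * p 6) with g | g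
    · refine ⟨fun P => 1 - 3 * at1 6 P, by simp [dC], ?_⟩
      rw [el_eq (show tb _ = [1, 1, 1, 1, 1, 1, -2, 1] from rfl)]
      push_cast
      linarith
    · refine ⟨fun P => 3 * wf 1 P + 3 * wf 2 P - 3 * wf 0 P - 1 - 3 * at1 6 P, by simp [dC], ?_⟩
      rw [el_eq (show tb _ = [-1, -4, 2, -1, 2, -1, 2, 2] from rfl)]
      push_cast
      linarith
  · refine ⟨fun P => 3 * at1 1 P - 3 * wf 0 P + 1, by simp [oC], ?_⟩
    rw [el_eq (show tb _ = [1, 1, 1, -2, 1, -2, 1, -2] from rfl)]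
    push_cast
    linarith
  · refine ⟨fun P => 1 - 3 * at1 5 P, by simp [dC], ?_⟩
    rw [el_eq (show tb _ = [1, 1, 1, 1, 1, -2, 1, 1] from rfl)]
    push_cast
    linarith
  · rcases le_total 0 (p 0 + p 2 + p 4 + p 6 - 3 * p 6) with g | g
    · refine ⟨fun P => 3 * at1 2 P - 3 * wf 1 P + 1, by simp [oC], ?_⟩
      rw [el_eq (show tb _ = [1, 1, 1, -2, 1, 1, -2, -2] from rfl)]
      push_cast
      linarith
    · refine ⟨fun P => 3 * at1 2 P - 1 + 3 * wf 2 P, by simp [oC], ?_⟩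
      rw [el_eq (show tb _ = [-1, -1, 2, -1, 2, 2, 2, 2] from rfl)]
      push_cast
      linarith
  · refine ⟨fun P => 1 - 3 * at1 3 P, by simp [dC], ?_⟩
    rw [el_eq (show tb _ = [1, 1, 1, -2, 1, 1, 1, 1] from rfl)]
    push_cast
    linarith
  · rcases le_total 0 (p 0 + p 2 + p 4 + p 6 - 3 * p 6) with g | g
    · refine ⟨fun P => 3 * at1 4 P - 3 * wf 2 P + 1, by simp [oC], ?_⟩
      rw [el_eq (show tb _ = [1, 1, 1, 1, 1, -2, -2, -2] from rfl)]
      push_cast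
      linarith
    · refine ⟨fun P => 3 * at1 4 P - 1 + 3 * wf 1 P, by simp [oC], ?_⟩
      rw [el_eq (show tb _ = [-1, -1, 2, 2, 2, -1, 2, 2] from rfl)]
      push_cast
      linarith
  · refine ⟨fun P => 1 - 3 * at1 7 P, by simp [iC], ?_⟩
    rw [el_eq (show tb _ = [1, 1, 1, 1, 1, 1, 1, -2] from rfl)]
    push_cast
    linarith

/-- the condition on the last two points -/
theorem pair12 {e : ℕ} (he : e < 8) (hb : e.testBit 2 = false) {p : ℕ → ℝ} (h : sat e p) :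
    0 ≤ (p 0 + p 1 + p 2 + p 3 + p 4 + p 5 + p 6 + p 7) - 3 * (p 4 + p 5) ∨
    0 ≤ (p 0 + p 1 + p 2 + p 3 + p 4 + p 5 + p 6 + p 7) - 3 * (p 2 + p 3) := by
  obtain ⟨f, hf, h0⟩ := h (pairC 1 2) (by
    unfold rgn
    simp only [List.mem_append]
    exact Or.inl (Or.inl (Or.inr (by rw [hb, cond_false]; simp))))
  simp only [pairC, List.mem_cons, List.not_mem_nil, or_false] at hf
  rcases hf with rfl | rfl
  · left
    rw [el_eq (show tb _ = [1, 1, 1, 1, -2, -2, 1, 1] from rfl)] at h0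
    push_cast at h0
    linarith
  · right
    rw [el_eq (show tb _ = [1, 1, -2, -2, 1, 1, 1, 1] from rfl)] at h0
    push_cast at h0
    linarith

/-- the condition on the first and the last point -/
theorem pair02 {e : ℕ} (he : e < 8) (hb : e.testBit 1 = false) {p : ℕ → ℝ} (h : sat e p) :
    0 ≤ (p 0 + p 1 + p 2 + p 3 + p 4 + p 5 + p 6 + p 7) - 3 * (p 4 + p 6) ∨
    0 ≤ (p 0 + p 1 + p 2 + p 3 + p 4 + p 5 + p 6 + p 7) - 3 * (p 1 + p 3) := by
  obtain ⟨f, hf, h0⟩ := h (pairC 0 2) (by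
    unfold rgn
    simp only [List.mem_append]
    exact Or.inl (Or.inl (Or.inl (Or.inr (by rw [hb, cond_false]; simp)))))
  simp only [pairC, List.mem_cons, List.not_mem_nil, or_false] at hf
  rcases hf with rfl | rfl
  · left
    rw [el_eq (show tb _ = [1, 1, 1, 1, -2, 1, -2, 1] from rfl)] at h0
    push_cast at h0
    linarith
  · right
    rw [el_eq (show tb _ = [1, -2, 1, -2, 1, 1, 1, 1] from rfl)] at h0
    push_cast at h0
    linarith

end Pool.Agent.Imp3
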