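import Pool.Agent.Lib.MP_009461_co.Glue

/-!
# One step of the construction
-/

namespace Pool.Agent.Imp3

open Finset

variable {V : Type} [Fintype V] [DecidableEq V]

/-- the new measure -/
def yn (y : Finset V → ℝ) (v : V) (θ : Finset V → ℝ) (J : Finset V) : ℝ :=
  if v ∈ J then y (J.erase v) * θ (J.erase v) else y J * (1 - θ J)

theorem sum_split (v : V) (g : Finset V → ℝ) :
    ∑ J, g J = ∑ J ∈ (univ.erase v).powerset, (g J + g (insert v J)) := by
  have h := Finset.sum_powerset_insert (Finset.notMem_erase v (univ : Finset V)) g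
  rw [Finset.insert_erase (mem_univ v), Finset.powerset_univ] at h
  rw [h, ← sum_add_distrib]

theorem sum_yn {y : Finset V → ℝ} {v : V} (θ : Finset V → ℝ) (hv : ∀ J, v ∈ J → y J = 0)
    (F : Finset V → ℝ) :
    ∑ J, yn y v θ J * F J = ∑ J, y J * ((1 - θ J) * F J + θ J * F (insert v J)) := by
  rw [sum_split v, sum_split v (fun J => y J * ((1 - θ J) * F J + θ J * F (insert v J)))]
  refine sum_congr rfl fun J hJ => ?_
  have hvJ : v ∉ J := fun h => notMem_erase v univ (mem_powerset.1 hJ h)
  rw [hv (insert v J) (mem_insert_self v J)]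
  unfold yn
  rw [if_neg hvJ, if_pos (mem_insert_self v J), erase_insert hvJ]
  ring

/-- order and adjacency of possibly absent points -/
def rel (H : SimpleGraph V) (r : V → ℕ) : Option V → Option V → Prop
  | none, _ => True
  | some _, none => False
  | some x, some z => r x < r z ∧ H.Adj x z

/-- triples of `S` -/
def Tri (H : SimpleGraph V) (r : V → ℕ) (S : Finset V) (a b c : Option V) : Prop :=
  rel H r a b ∧ rel H r a c ∧ rel H r b c ∧ (∀ x, a = some x → x ∈ S) ∧
    (∀ x, b = some x → x ∈ S) ∧ ∀ x, c = some x → x ∈ S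

/-- a fractional colouring of the set `S` -/
structure St (G H : SimpleGraph V) (r : V → ℕ) (w : V → ℝ) (M : ℝ) (S : Finset V)
    (y : Finset V → ℝ) : Prop where
  nn : ∀ J, 0 ≤ y J
  sup : Sup G y
  sub : ∀ J, y J ≠ 0 → J ⊆ S
  cov : ∀ v ∈ S, ∑ J, (if v ∈ J then y J else 0) = w v
  tot : ∑ J, y J = 3 / 2 * M
  tri : ∀ a b c, Tri H r S a b c → sat (ecode G a b c) (dist y a b c)

/-- at most one vertex -/
def opt (b : Bool) (a : Option V) : List V := cond b a.toList []

/-- weight of a possibly absent point -/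
def wO (w : V → ℝ) (a : Option V) : ℝ := a.elim 0 w

omit [Fintype V] [DecidableEq V] in
theorem mem_opt {b : Bool} {a : Option V} {x : V} (h : x ∈ opt b a) : b = true ∧ a = some x := by
  cases b
  · simp [opt] at h
  · exact ⟨rfl, by simpa [opt] using h⟩

omit [Fintype V] [DecidableEq V] in
theorem opt_pair (G : SimpleGraph V) (b : Bool) (a : Option V) : (opt b a).Pairwise G.Adj := by
  cases b
  · simp [opt]
  · cases a <;> simp [opt]

omit [Fintype V] [DecidableEq V] in
theorem opt_sum (w : V → ℝ) (b : Bool) (a : Option V) :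
    ((opt b a).map w).sum = ((bi b : ℤ) : ℝ) * wO w a := by
  cases b
  · simp [opt, bi]
  · cases a <;> simp [opt, bi, wO]

omit [Fintype V] in
theorem list_le {G : SimpleGraph V} {w : V → ℝ} {M : ℝ}
    (hM : ∀ K : Finset V, G.IsClique (K : Set V) → ∑ v ∈ K, w v ≤ M) (l : List V)
    (h : l.Pairwise G.Adj) : (l.map w).sum ≤ M := by
  have hnd : l.Nodup := h.imp fun hab => hab.ne
  have : Std.Symm G.Adj := ⟨fun _ _ q => q.symm⟩
  rw [← List.sum_toFinset w hnd]
  refine hM _ fun x hx z hz hxz => ?_
  exact h.forall (List.mem_toFinset.1 hx) (List.mem_toFinset.1 hz) hxz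

theorem Tri.sorted {H : SimpleGraph V} {r : V → ℕ} {S : Finset V} {a b c : Option V}
    (h : Tri H r S a b c) : rel H r a b ∧ rel H r a c ∧ rel H r b c := ⟨h.1, h.2.1, h.2.2.1⟩

section Step

variable {G H : SimpleGraph V} {r : V → ℕ} {w : V → ℝ} {M : ℝ} {S : Finset V}
  {y : Finset V → ℝ}

theorem St.cov' (h : St G H r w M S y) {a : Option V} (ha : ∀ x, a = some x → x ∈ S) :
    ∑ J, ((bi (inn a J) : ℤ) : ℝ) * y J = wO w a := by
  rcases a with _ | x
  · have : ∀ J : Finset V, inn (none : Option V) J = false := fun _ => rfl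
    simp [this, bi, wO]
  · have h1 := h.cov x (ha x rfl)
    change _ = w x
    rw [← h1]
    refine sum_congr rfl fun J _ => ?_
    by_cases hx : x ∈ J
    · have : inn (some x) J = true := decide_eq_true hx
      rw [this, if_pos hx]; simp [bi]
    · have : inn (some x) J = false := decide_eq_false hx
      rw [this, if_neg hx]; simp [bi]

/-- weights of sets of points in terms of the masses of the patterns -/
theorem St.wt_eq (h : St G H r w M S y) {x0 x1 x2 : Option V} (ht : Tri H r S x0 x1 x2) (v : V)
    (K : ℕ) : wt (dist y x0 x1 x2) (w v) K =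
      ((bi (K.testBit 0) : ℤ) : ℝ) * wO w x0 + ((bi (K.testBit 1) : ℤ) : ℝ) * wO w x1 +
      ((bi (K.testBit 2) : ℤ) : ℝ) * wO w x2 + ((bi (K.testBit 3) : ℤ) : ℝ) * w v := by
  obtain ⟨-, -, -, h0, h1, h2⟩ := ht
  unfold wt
  rw [sum_dist y x0 x1 x2 (fun T => ((wK K T : ℤ) : ℝ)), ← h.cov' h0, ← h.cov' h1, ← h.cov' h2,
    mul_sum, mul_sum, mul_sum, ← sum_add_distrib, ← sum_add_distrib]
  congr 1
  refine sum_congr rfl fun J _ => ?_
  unfold wK wf
  rw [pat_bit0, pat_bit1, pat_bit2]
  push_cast
  ring

/-- the clique conditions -/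
theorem St.clique (h : St G H r w M S y)
    (hM : ∀ K : Finset V, G.IsClique (K : Set V) → ∑ v ∈ K, w v ≤ M) {x0 x1 x2 : Option V}
    (ht : Tri H r S x0 x1 x2) (v : V) {E N : ℕ} (hE0 : E.testBit 0 = aO G x0 x1)
    (hE1 : E.testBit 1 = aO G x0 x2) (hE2 : E.testBit 2 = aO G x1 x2)
    (hN0 : N.testBit 0 = aO G x0 (some v)) (hN1 : N.testBit 1 = aO G x1 (some v))
    (hN2 : N.testBit 2 = aO G x2 (some v)) (K : ℕ) (hK : clq E N K = true) :
    3 * wt (dist y x0 x1 x2) (w v) K ≤ 2 * ∑ T ∈ range 8, dist y x0 x1 x2 T := by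
  have e1 : ∑ T ∈ range 8, dist y x0 x1 x2 T = 3 / 2 * M := by
    have := sum_dist y x0 x1 x2 (fun _ => 1)
    simp only [one_mul] at this
    rw [this, h.tot]
  rw [e1, h.wt_eq ht]
  unfold clq at hK
  rw [hE0, hE1, hE2, hN0, hN1, hN2] at hK
  simp only [Bool.and_eq_true, Bool.or_eq_true, Bool.not_eq_true', Bool.and_eq_false_iff] at hK
  obtain ⟨⟨⟨⟨⟨k01, k02⟩, k12⟩, k03⟩, k13⟩, k23⟩ := hK
  have cross : ∀ {b c : Bool} {a d : Option V}, ((b = false ∨ c = false) ∨ aO G a d = true) →
      ∀ x ∈ opt b a, ∀ z ∈ opt c d, G.Adj x z := by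
    intro b c a d hbc x hx z hz
    obtain ⟨hb, rfl⟩ := mem_opt hx
    obtain ⟨hc, rfl⟩ := mem_opt hz
    rcases hbc with (hb' | hc') | had
    · rw [hb] at hb'; exact absurd hb' (by decide)
    · rw [hc] at hc'; exact absurd hc' (by decide)
    · obtain ⟨x', z', hx', hz', hadj⟩ := (aO_iff G).1 had
      cases hx'; cases hz'
      exact hadj
  have hl := list_le (G := G) hM (opt (K.testBit 0) x0 ++ (opt (K.testBit 1) x1 ++
    (opt (K.testBit 2) x2 ++ opt (K.testBit 3) (some v)))) (by
      refine List.pairwise_append.2 ⟨opt_pair G _ _, List.pairwise_append.2 ⟨opt_pair G _ _,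
        List.pairwise_append.2 ⟨opt_pair G _ _, opt_pair G _ _, cross k23⟩, ?_⟩, ?_⟩
      · intro x hx z hz
        rcases List.mem_append.1 hz with hz | hz
        · exact cross k12 x hx z hz
        · exact cross k13 x hx z hz
      · intro x hx z hz
        rcases List.mem_append.1 hz with hz | hz
        · exact cross k01 x hx z hz
        · rcases List.mem_append.1 hz with hz | hz
          · exact cross k02 x hx z hz
          · exact cross k03 x hx z hz)
  rw [List.map_append, List.map_append, List.map_append, List.sum_append, List.sum_append,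
    List.sum_append, opt_sum, opt_sum, opt_sum, opt_sum] at hl
  have e2 : wO w (some v) = w v := rfl
  rw [e2] at hl
  linarith

omit [Fintype V] in
theorem pat_insert {a b c : Option V} {v : V} (ha : a ≠ some v) (hb : b ≠ some v)
    (hc : c ≠ some v) (J : Finset V) : pat a b c (insert v J) = pat a b c J := by
  have key : ∀ {a : Option V}, a ≠ some v → inn a (insert v J) = inn a J := by
    intro a ha
    rcases a with _ | x
    · rfl
    · have hx : x ≠ v := fun h => ha (by rw [h])
      change decide (x ∈ insert v J) = decide (x ∈ J)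
      simp [mem_insert, hx]
  unfold pat
  rw [key ha, key hb, key hc]

theorem dist_yn {θ : Finset V → ℝ} {v : V} (hv : ∀ J, v ∈ J → y J = 0) (a b c : Option V)
    (P : ℕ) : dist (yn y v θ) a b c P = ∑ J, y J * ((1 - θ J) * (if pat a b c J = P then 1 else 0) +
      θ J * (if pat a b c (insert v J) = P then 1 else 0)) := by
  rw [← sum_yn θ hv fun J => if pat a b c J = P then 1 else 0]
  unfold dist
  exact sum_congr rfl fun J _ => by rw [mul_ite, mul_one, mul_zero]

/-- the distribution on triples without the new point -/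
theorem dist_old {θ : Finset V → ℝ} {v : V} (hv : ∀ J, v ∈ J → y J = 0) {a b c : Option V}
    (ha : a ≠ some v) (hb : b ≠ some v) (hc : c ≠ some v) :
    dist (yn y v θ) a b c = dist y a b c := by
  funext P
  rw [dist_yn hv]
  unfold dist
  refine sum_congr rfl fun J _ => ?_
  rw [pat_insert ha hb hc]
  split_ifs <;> ring

/-- the distribution on the faces -/
theorem dist_face {v : V} (hv : ∀ J, v ∈ J → y J = 0) {x0 x1 x2 : Option V} {q : ℕ → ℝ}
    (hq : ∀ T, T < 8 → 0 ≤ q T ∧ q T ≤ dist y x0 x1 x2 T) {i j : ℕ} {a b : Option V}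
    (hi : ∀ J, (pat x0 x1 x2 J).testBit i = inn a J)
    (hj : ∀ J, (pat x0 x1 x2 J).testBit j = inn b J) (ha : a ≠ some v) (hb : b ≠ some v) :
    dist (yn y v fun J => q (pat x0 x1 x2 J) / dist y x0 x1 x2 (pat x0 x1 x2 J)) a b (some v) =
      fac i j (dist y x0 x1 x2) q := by
  funext P
  rw [dist_yn hv]
  set m := dist y x0 x1 x2 with hm
  have h1 : ∀ J, y J * ((1 - q (pat x0 x1 x2 J) / m (pat x0 x1 x2 J)) *
      (if pat a b (some v) J = P then 1 else 0) + q (pat x0 x1 x2 J) / m (pat x0 x1 x2 J) *
      (if pat a b (some v) (insert v J) = P then 1 else 0)) =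
      (fun T => (1 - q T / m T) * (if pt i j T = P then 1 else 0) +
        q T / m T * (if pt i j T + 4 = P then 1 else 0)) (pat x0 x1 x2 J) * y J := by
    intro J
    by_cases hy : y J = 0
    · rw [hy]; ring
    · have hvJ : v ∉ J := fun h => hy (hv J h)
      have e1 : pat a b (some v) J = pt i j (pat x0 x1 x2 J) := by
        unfold pt
        rw [hi J, hj J]
        have : inn (some v) J = false := decide_eq_false hvJ
        unfold pat
        rw [this, cond_false, add_zero]
      have e2 : pat a b (some v) (insert v J) = pt i j (pat x0 x1 x2 J) + 4 := by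
        unfold pt
        rw [hi J, hj J]
        have h3 : inn (some v) (insert v J) = true := decide_eq_true (mem_insert_self v J)
        have h4 := pat_insert ha hb (Option.some_ne_none v).symm J
        unfold pat at h4 ⊢
        rw [h3, cond_true]
        have h5 : inn (none : Option V) (insert v J) = false := rfl
        have h6 : inn (none : Option V) J = false := rfl
        rw [h5, h6, cond_false, add_zero, add_zero] at h4
        rw [h4]
      rw [e1, e2]
      ring
  refine (sum_congr rfl fun J _ => h1 J).trans ((sum_dist y x0 x1 x2 (fun T =>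
    (1 - q T / m T) * (if pt i j T = P then 1 else 0) +
      q T / m T * (if pt i j T + 4 = P then 1 else 0))).symm.trans ?_)
  unfold fac
  refine sum_congr rfl fun T hT => ?_
  obtain ⟨hq0, hq1⟩ := hq T (mem_range.1 hT)
  have hqm : q T / m T * m T = q T := by
    by_cases h0 : m T = 0
    · have : q T = 0 := le_antisymm (h0 ▸ hq1) hq0
      rw [this, h0]; simp
    · exact div_mul_cancel₀ _ h0
  change ((1 - q T / m T) * (if pt i j T = P then 1 else 0) +
        q T / m T * (if pt i j T + 4 = P then 1 else 0)) * m T = _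
  have : ((1 - q T / m T) * (if pt i j T = P then 1 else 0) +
        q T / m T * (if pt i j T + 4 = P then 1 else 0)) * m T =
      (m T - q T / m T * m T) * (if pt i j T = P then 1 else 0) +
        (q T / m T * m T) * (if pt i j T + 4 = P then 1 else 0) := by ring
  rw [this, hqm]
  split_ifs <;> ring

/-- the code of a face -/
theorem fe_eq {E N i j : ℕ} {a b : Option V} {v : V} (hE : E.testBit (i + j - 1) = aO G a b)
    (hi : N.testBit i = aO G a (some v)) (hj : N.testBit j = aO G b (some v)) :
    fe E N i j = ecode G a b (some v) := by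
  unfold fe ecode
  rw [hE, hi, hj]

theorem rel_irrefl {a b : Option V} (h : rel H r a b) (h' : rel H r b a) (ha : a ≠ none)
    (hb : b ≠ none) : False := by
  rcases a with _ | x
  · exact ha rfl
  · rcases b with _ | z
    · exact hb rfl
    · have h1 : r x < r z ∧ H.Adj x z := h
      have h2 : r z < r x ∧ H.Adj z x := h'
      omega

/-- One step: the new vertex `v`, whose earlier neighbours are among `x0`, `x1`, `x2`. -/
theorem St.step (hext : ∀ {E N : ℕ}, E < 8 → N < 8 → Ext E N) (hGH : G ≤ H)
    (hM : ∀ K : Finset V, G.IsClique (K : Set V) → ∑ v ∈ K, w v ≤ M) (hw : ∀ v, 0 ≤ w v)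
    (h : St G H r w M S y) {v : V} (hvS : v ∉ S) (hSv : ∀ u ∈ S, r u < r v)
    {x0 x1 x2 : Option V} (ht : Tri H r S x0 x1 x2)
    (hcov : ∀ u ∈ S, H.Adj u v → some u = x0 ∨ some u = x1 ∨ some u = x2) :
    ∃ y', St G H r w M (insert v S) y' := by
  set E := ecode G x0 x1 x2 with hE
  set N := cond (aO G x0 (some v)) 1 0 + cond (aO G x1 (some v)) 2 0 +
    cond (aO G x2 (some v)) 4 0 with hN
  have hE8 : E < 8 := ecode_lt G _ _ _
  have hN8 : N < 8 := by
    rw [hN]
    cases aO G x0 (some v) <;> cases aO G x1 (some v) <;> cases aO G x2 (some v) <;> decide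
  have hN0 : N.testBit 0 = aO G x0 (some v) := by
    rw [hN]
    cases aO G x0 (some v) <;> cases aO G x1 (some v) <;> cases aO G x2 (some v) <;> decide
  have hN1 : N.testBit 1 = aO G x1 (some v) := by
    rw [hN]
    cases aO G x0 (some v) <;> cases aO G x1 (some v) <;> cases aO G x2 (some v) <;> decide
  have hN2 : N.testBit 2 = aO G x2 (some v) := by
    rw [hN]
    cases aO G x0 (some v) <;> cases aO G x1 (some v) <;> cases aO G x2 (some v) <;> decide
  have hE0 : E.testBit 0 = aO G x0 x1 := ecode_bit0 G _ _ _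
  have hE1 : E.testBit 1 = aO G x0 x2 := ecode_bit1 G _ _ _
  have hE2 : E.testBit 2 = aO G x1 x2 := ecode_bit2 G _ _ _
  set m := dist y x0 x1 x2 with hm
  have hind : ∀ T, T < 8 → ind E T = false → m T = 0 := by
    intro T hT hi
    refine dist_adj_zero h.sup fun J hJ => ?_
    unfold ind at hi
    rw [hE0, hE1, hE2, ← hJ, pat_bit0, pat_bit1, pat_bit2] at hi
    simp only [Bool.not_eq_false', Bool.or_eq_true, Bool.and_eq_true] at hi
    rcases hi with (⟨⟨h1, h2⟩, h3⟩ | ⟨⟨h1, h2⟩, h3⟩) | ⟨⟨h1, h2⟩, h3⟩
    · exact adj_zero h.sup h3 h1 h2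
    · exact adj_zero h.sup h3 h1 h2
    · exact adj_zero h.sup h3 h1 h2
  obtain ⟨q, hq, hqs, hqN, f01, f02, f12⟩ := hext hE8 hN8 m (w v)
    (fun T _ => dist_nonneg h.nn _ _ _ _) hind (hw v)
    (fun K _ _ hK => h.clique hM ht v hE0 hE1 hE2 hN0 hN1 hN2 K hK) (h.tri _ _ _ ht)
  set θ : Finset V → ℝ := fun J => q (pat x0 x1 x2 J) / m (pat x0 x1 x2 J) with hθ
  have hv : ∀ J, v ∈ J → y J = 0 := fun J hvJ => by
    by_contra hne
    exact hvS (h.sub J hne hvJ)
  have hθ0 : ∀ J, 0 ≤ θ J := fun J =>
    div_nonneg (hq _ (pat_lt _ _ _ J)).1 (dist_nonneg h.nn _ _ _ _)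
  have hθ1 : ∀ J, θ J ≤ 1 := fun J =>
    div_le_one_of_le₀ (hq _ (pat_lt _ _ _ J)).2 (dist_nonneg h.nn _ _ _ _)
  have n0 : x0 ≠ some v := fun e => hvS (ht.2.2.2.1 v e)
  have n1 : x1 ≠ some v := fun e => hvS (ht.2.2.2.2.1 v e)
  have n2 : x2 ≠ some v := fun e => hvS (ht.2.2.2.2.2 v e)
  have hqm : ∀ T, T < 8 → q T / m T * m T = q T := by
    intro T hT
    obtain ⟨hq0, hq1⟩ := hq T hT
    by_cases h0 : m T = 0
    · have : q T = 0 := le_antisymm (h0 ▸ hq1) hq0
      rw [this, h0]; simp
    · exact div_mul_cancel₀ _ h0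
  have hnn : ∀ J, 0 ≤ yn y v θ J := by
    intro J
    unfold yn
    split_ifs
    · exact mul_nonneg (h.nn _) (hθ0 _)
    · exact mul_nonneg (h.nn _) (by linarith [hθ1 J])
  have hsup : Sup G (yn y v θ) := by
    intro J hJ
    unfold yn at hJ
    by_cases hvJ : v ∈ J
    · rw [if_pos hvJ] at hJ
      have hy := left_ne_zero_of_mul hJ
      have hθ' := right_ne_zero_of_mul hJ
      have hind' := h.sup _ hy
      have hsub := h.sub _ hy
      have hqne : q (pat x0 x1 x2 (J.erase v)) ≠ 0 := fun e => hθ' (by
        change q (pat x0 x1 x2 (J.erase v)) / _ = 0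
        rw [e, zero_div])
      have hT : pat x0 x1 x2 (J.erase v) &&& N = 0 := by
        by_contra hne
        exact hqne (hqN _ (pat_lt _ _ _ _) hne)
      have hbit : ∀ i, (pat x0 x1 x2 (J.erase v)).testBit i = true → N.testBit i = true →
          False := by
        intro i h1 h2
        have h3 := congrArg (fun n => Nat.testBit n i) hT
        simp only [Nat.testBit_and, h1, h2, Nat.zero_testBit] at h3
        exact absurd h3 (by decide)
      have hnadj : ∀ u ∈ J, u ≠ v → ¬ G.Adj u v := by
        intro u hu huv hadj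
        have huJ : u ∈ J.erase v := mem_erase.2 ⟨huv, hu⟩
        rcases hcov u (hsub huJ) (hGH hadj) with e | e | e
        · refine hbit 0 ?_ ?_
          · rw [pat_bit0, ← e]; exact decide_eq_true huJ
          · rw [hN0, ← e]; exact (aO_iff G).2 ⟨u, v, rfl, rfl, hadj⟩
        · refine hbit 1 ?_ ?_
          · rw [pat_bit1, ← e]; exact decide_eq_true huJ
          · rw [hN1, ← e]; exact (aO_iff G).2 ⟨u, v, rfl, rfl, hadj⟩
        · refine hbit 2 ?_ ?_
          · rw [pat_bit2, ← e]; exact decide_eq_true huJ
          · rw [hN2, ← e]; exact (aO_iff G).2 ⟨u, v, rfl, rfl, hadj⟩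
      intro a ha b hb hab hadj
      by_cases hav : a = v
      · subst hav
        exact hnadj b hb hab.symm hadj.symm
      · by_cases hbv : b = v
        · subst hbv
          exact hnadj a ha hab hadj
        · exact hind' (mem_coe.2 (mem_erase.2 ⟨hav, ha⟩)) (mem_coe.2 (mem_erase.2 ⟨hbv, hb⟩))
            hab hadj
    · rw [if_neg hvJ] at hJ
      exact h.sup _ (left_ne_zero_of_mul hJ)
  have F01 : sat (ecode G x0 x1 (some v)) (dist (yn y v θ) x0 x1 (some v)) := by
    rw [dist_face hv hq (i := 0) (j := 1) (pat_bit0 _ _ _) (pat_bit1 _ _ _) n0 n1,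
      ← fe_eq (G := G) (i := 0) (j := 1) hE0 hN0 hN1]
    exact f01
  have F02 : sat (ecode G x0 x2 (some v)) (dist (yn y v θ) x0 x2 (some v)) := by
    rw [dist_face hv hq (i := 0) (j := 2) (pat_bit0 _ _ _) (pat_bit2 _ _ _) n0 n2,
      ← fe_eq (G := G) (i := 0) (j := 2) hE1 hN0 hN2]
    exact f02
  have F12 : sat (ecode G x1 x2 (some v)) (dist (yn y v θ) x1 x2 (some v)) := by
    rw [dist_face hv hq (i := 1) (j := 2) (pat_bit1 _ _ _) (pat_bit2 _ _ _) n1 n2,
      ← fe_eq (G := G) (i := 1) (j := 2) hE2 hN1 hN2]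
    exact f12
  refine ⟨yn y v θ, hnn, hsup, ?_, ?_, ?_, ?_⟩
  · intro J hJ
    unfold yn at hJ
    by_cases hvJ : v ∈ J
    · rw [if_pos hvJ] at hJ
      have := h.sub _ (left_ne_zero_of_mul hJ)
      intro u hu
      by_cases huv : u = v
      · exact huv ▸ mem_insert_self v S
      · exact mem_insert_of_mem (this (mem_erase.2 ⟨huv, hu⟩))
    · rw [if_neg hvJ] at hJ
      exact (h.sub _ (left_ne_zero_of_mul hJ)).trans (subset_insert v S)
  · intro u hu
    have e1 : ∑ J, (if u ∈ J then yn y v θ J else 0) =
        ∑ J, yn y v θ J * (if u ∈ J then 1 else 0) :=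
      sum_congr rfl fun J _ => by rw [mul_ite, mul_one, mul_zero]
    rw [e1, sum_yn θ hv]
    by_cases huv : u = v
    · subst huv
      have e2 : ∀ J, y J * ((1 - θ J) * (if u ∈ J then 1 else 0) +
          θ J * (if u ∈ insert u J then 1 else 0)) =
          (fun T => q T / m T) (pat x0 x1 x2 J) * y J := by
        intro J
        rw [if_pos (mem_insert_self u J)]
        by_cases hy : y J = 0
        · rw [hy]; ring
        · have hvJ : u ∉ J := fun h => hy (hv J h)
          rw [if_neg hvJ]
          change y J * ((1 - θ J) * 0 + θ J * 1) = θ J * y J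
          ring
      refine (sum_congr rfl fun J _ => e2 J).trans
        ((sum_dist y x0 x1 x2 (fun T => q T / m T)).symm.trans ?_)
      rw [← hqs]
      exact sum_congr rfl fun T hT => hqm T (mem_range.1 hT)
    · rw [← h.cov u (mem_of_mem_insert_of_ne hu huv)]
      refine sum_congr rfl fun J _ => ?_
      by_cases huJ : u ∈ J
      · rw [if_pos huJ, if_pos (mem_insert_of_mem huJ), if_pos huJ]
        ring
      · rw [if_neg huJ, if_neg (fun hm => huJ (mem_of_mem_insert_of_ne hm huv)), if_neg huJ]
        ring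
  · have e1 : ∑ J, yn y v θ J = ∑ J, yn y v θ J * 1 := by simp
    rw [e1, sum_yn θ hv (fun _ => 1), ← h.tot]
    exact sum_congr rfl fun J _ => by ring
  · intro a b c habc
    obtain ⟨rab, rac, rbc, ma, mb, mc⟩ := habc
    have inS : ∀ {a : Option V}, (∀ x, a = some x → x ∈ insert v S) → a ≠ some v →
        ∀ x, a = some x → x ∈ S := by
      intro a ha hav x hx
      refine mem_of_mem_insert_of_ne (ha x hx) fun hxv => hav ?_
      rw [hx, hxv]
    have last : ∀ {a b : Option V}, rel H r a b → (∀ x, b = some x → x ∈ insert v S) →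
        a ≠ some v := by
      rintro a b hab hb rfl
      rcases b with _ | z
      · exact hab
      · have h1 : r v < r z ∧ H.Adj v z := hab
        rcases mem_insert.1 (hb z rfl) with e | e
        · rw [e] at h1; omega
        · have := hSv z e
          omega
    by_cases hc : c = some v
    · subst hc
      have ha := last rac mc
      have hb := last rbc mc
      -- the present points among `a`, `b` are among the `x`
      have who : ∀ {a : Option V}, (∀ x, a = some x → x ∈ insert v S) → a ≠ some v →
          rel H r a (some v) → a = none ∨ (a = x0 ∨ a = x1 ∨ a = x2) := by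
        intro a ma' ha' hr'
        rcases a with _ | x
        · exact Or.inl rfl
        · right
          have h1 : r x < r v ∧ H.Adj x v := hr'
          exact hcov x (inS ma' ha' x rfl) h1.2
      have D0 : ∀ d, (d = x0 ∨ d = x1 ∨ d = x2) →
          sat (ecode G none d (some v)) (dist (yn y v θ) none d (some v)) := by
        rintro d (rfl | rfl | rfl)
        · exact sat_drop1 hnn hsup F01
        · exact sat_drop0 hnn hsup F01
        · exact sat_drop0 hnn hsup F02
      rcases who ma ha rac with rfl | ha'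
      · rcases who mb hb rbc with rfl | hb'
        · exact sat_none2 hnn hsup _
        · exact D0 b hb'
      · by_cases han : a = none
        · subst han
          rcases who mb hb rbc with rfl | hb'
          · exact sat_none2 hnn hsup _
          · exact D0 b hb'
        · have hbn : b ≠ none := by
            rintro rfl
            rcases a with _ | x
            · exact han rfl
            · exact rab
          rcases who mb hb rbc with hb' | hb'
          · exact absurd hb' hbn
          · obtain ⟨t01, t02, t12, -⟩ := ht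
            rcases ha' with rfl | rfl | rfl <;> rcases hb' with rfl | rfl | rfl
            · exact (rel_irrefl rab rab han hbn).elim
            · exact F01
            · exact F02
            · exact (rel_irrefl rab t01 han hbn).elim
            · exact (rel_irrefl rab rab han hbn).elim
            · exact F12
            · exact (rel_irrefl rab t02 han hbn).elim
            · exact (rel_irrefl rab t12 han hbn).elim
            · exact (rel_irrefl rab rab han hbn).elim
    · have ha : a ≠ some v := last rac mc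
      have hb : b ≠ some v := last rbc mc
      rw [dist_old hv ha hb hc]
      exact h.tri a b c ⟨rab, rac, rbc, inS ma ha, inS mb hb, inS mc hc⟩

end Step

end Pool.Agent.Imp3
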